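import Mathlib

/-!
Vosper's theorem in trio form and the classification of the largest sum-free sets in `ZMod p`.
-/

set_option autoImplicit false

open Finset
open scoped Pointwise

namespace Pool.Agent.Lib.MP_eec16c_co

variable {p : ℕ} [hp : Fact p.Prime]

/-- No element of `A`, `B`, `C` sum to zero. -/
def Trio (A B C : Finset (ZMod p)) : Prop := ∀ a ∈ A, ∀ b ∈ B, ∀ c ∈ C, a + b + c ≠ 0

lemma Trio.swap12 {A B C : Finset (ZMod p)} (h : Trio A B C) : Trio B A C :=
  fun b hb a ha c hc => by rw [add_comm b a]; exact h a ha b hb c hc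

lemma Trio.rot {A B C : Finset (ZMod p)} (h : Trio A B C) : Trio B C A :=
  fun b hb c hc a ha => by rw [show b + c + a = a + b + c by ring]; exact h a ha b hb c hc

lemma Trio.card_add_le {A B C : Finset (ZMod p)} (h : Trio A B C) :
    (A + B).card + C.card ≤ p := by
  have hd : Disjoint (A + B) (-C) := by
    rw [Finset.disjoint_left]
    intro x hx hx'
    obtain ⟨a, ha, b, hb, rfl⟩ := Finset.mem_add.mp hx
    obtain ⟨c, hc, hc'⟩ := Finset.mem_neg.mp hx'
    exact h a ha b hb c hc (by rw [← hc']; ring)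
  have h1 := Finset.card_le_univ ((A + B).disjUnion (-C) hd)
  rw [Finset.card_disjUnion, Finset.card_neg, ZMod.card] at h1
  exact h1

lemma Trio.cd {A B C : Finset (ZMod p)} (h : Trio A B C) (hA : A.Nonempty) (hB : B.Nonempty)
    (hC : C.Nonempty) : A.card + B.card + C.card ≤ p + 1 := by
  have h1 := h.card_add_le
  have h2 := ZMod.cauchy_davenport hp.out hA hB
  have h3 := hC.card_pos
  have h4 := hA.card_pos
  rcases min_le_iff.mp h2 with h5 | h5 <;> omega

/-- At most one element of `A` leaves `A` when `d` is added. -/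
def IsAP (d : ZMod p) (A : Finset (ZMod p)) : Prop := (A.filter (fun x => x + d ∉ A)).card ≤ 1

lemma isAP_transfer {A B C : Finset (ZMod p)} (h : Trio A B C)
    (hs : A.card + B.card + C.card = p + 1) (hA : 2 ≤ A.card) (hB : B.Nonempty) (hC : C.Nonempty)
    {d : ZMod p} (hd : IsAP d A) : IsAP d B := by
  have h1 := Finset.card_filter_add_card_filter_not (s := A) (fun x => x + d ∈ A)
  unfold IsAP at hd ⊢
  have hT : Trio (A.filter (fun x => x + d ∈ A)) (B ∪ B.image (· + d)) C := by
    intro a ha b hb c hc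
    rw [Finset.mem_filter] at ha
    rcases Finset.mem_union.mp hb with hb | hb
    · exact h a ha.1 b hb c hc
    · obtain ⟨b', hb', rfl⟩ := Finset.mem_image.mp hb
      rw [show a + (b' + d) + c = a + d + b' + c by ring]
      exact h _ ha.2 b' hb' c hc
  have h2 := hT.cd (Finset.card_pos.mp (by omega)) (hB.mono Finset.subset_union_left) hC
  have hdis : Disjoint B ((B.filter (fun x => x + d ∉ B)).image (· + d)) := by
    rw [Finset.disjoint_left]
    intro x hx hx'
    obtain ⟨y, hy, rfl⟩ := Finset.mem_image.mp hx'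
    exact (Finset.mem_filter.mp hy).2 hx
  have h3 : (B ∪ (B.filter (fun x => x + d ∉ B)).image (· + d)).card ≤
      (B ∪ B.image (· + d)).card :=
    Finset.card_le_card (Finset.union_subset_union_right
      (Finset.image_subset_image (Finset.filter_subset _ _)))
  rw [Finset.card_union_of_disjoint hdis,
    Finset.card_image_of_injective _ (add_left_injective d)] at h3
  omega

theorem vosper (n : ℕ) : ∀ A B C : Finset (ZMod p), B.card = n → Trio A B C →
    A.card + B.card + C.card = p + 1 → 2 ≤ A.card → 2 ≤ B.card → 2 ≤ C.card →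
    ∃ d : ZMod p, d ≠ 0 ∧ IsAP d C := by
  induction n using Nat.strong_induction_on with
  | _ n ih =>
  intro A B C hn h hs hA hB hC
  have hAne : A.Nonempty := Finset.card_pos.mp (by omega)
  have hBne : B.Nonempty := Finset.card_pos.mp (by omega)
  have hCne : C.Nonempty := Finset.card_pos.mp (by omega)
  by_cases hB2 : B.card = 2
  · obtain ⟨x, y, hxy, rfl⟩ := Finset.card_eq_two.mp hB2
    refine ⟨y - x, sub_ne_zero.mpr hxy.symm, isAP_transfer h.rot (by omega) hB hCne hAne ?_⟩
    unfold IsAP
    refine (Finset.card_le_card (t := {y}) ?_).trans (by simp)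
    intro z hz
    rw [Finset.mem_filter, Finset.mem_insert, Finset.mem_singleton] at hz
    rcases hz.1 with rfl | rfl
    · exact absurd (by simp) hz.2
    · simp
  obtain ⟨b₀, hb₀⟩ := hBne
  by_cases hex : ∃ x ∈ A, 2 ≤ (B.filter (fun b => b + (x - b₀) ∈ A)).card ∧
      (B.filter (fun b => b + (x - b₀) ∈ A)).card < B.card
  · obtain ⟨x, hx, h1, h2⟩ := hex
    have hT : Trio (A ∪ B.image (· + (x - b₀))) (B.filter (fun b => b + (x - b₀) ∈ A)) C := by
      intro a ha b hb c hc
      rw [Finset.mem_filter] at hb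
      rcases Finset.mem_union.mp ha with ha | ha
      · exact h a ha b hb.1 c hc
      · obtain ⟨b', hb', rfl⟩ := Finset.mem_image.mp ha
        rw [show b' + (x - b₀) + b + c = b + (x - b₀) + b' + c by ring]
        exact h _ hb.2 b' hb' c hc
    have hc1 := Finset.card_union_add_card_inter A (B.image (· + (x - b₀)))
    rw [Finset.card_image_of_injective _ (add_left_injective _)] at hc1
    have hc2 : (A ∩ B.image (· + (x - b₀))) =
        (B.filter (fun b => b + (x - b₀) ∈ A)).image (· + (x - b₀)) := by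
      ext z
      simp only [Finset.mem_inter, Finset.mem_image, Finset.mem_filter]
      constructor
      · rintro ⟨hz, b, hb, rfl⟩; exact ⟨b, ⟨hb, hz⟩, rfl⟩
      · rintro ⟨b, ⟨hb, hz⟩, rfl⟩; exact ⟨hz, b, hb, rfl⟩
    rw [hc2, Finset.card_image_of_injective _ (add_left_injective _)] at hc1
    exact ih _ (by omega) _ _ C rfl hT (by omega)
      (hA.trans (Finset.card_le_card Finset.subset_union_left)) h1 hC
  exfalso
  push Not at hex
  set Y := A.filter (fun x => ∀ b ∈ B, b + (x - b₀) ∈ A) with hY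
  set X := A.filter (fun x => ¬ ∀ b ∈ B, b + (x - b₀) ∈ A) with hX
  have hXY : Y.card + X.card = A.card := Finset.card_filter_add_card_filter_not _
  have hX2 : 2 ≤ X.card := by
    rcases Y.eq_empty_or_nonempty with h0 | h0
    · rw [h0] at hXY; simp at hXY; omega
    · have h1 := ZMod.cauchy_davenport hp.out h0 ⟨b₀, hb₀⟩
      have h2 : (Y + B).card ≤ (A.image (· + b₀)).card := by
        refine Finset.card_le_card (fun z hz => ?_)
        obtain ⟨y, hy, b, hb, rfl⟩ := Finset.mem_add.mp hz
        exact Finset.mem_image.mpr ⟨_, (Finset.mem_filter.mp hy).2 b hb, by ring⟩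
      rw [Finset.card_image_of_injective _ (add_left_injective _)] at h2
      rcases min_le_iff.mp h1 with h5 | h5 <;> omega
  have hBs : (B.erase b₀).card = B.card - 1 := Finset.card_erase_of_mem hb₀
  have hdis : Disjoint (X + B.erase b₀) (A.image (· + b₀)) := by
    rw [Finset.disjoint_left]
    intro z hz hz'
    obtain ⟨x, hx, b, hb, rfl⟩ := Finset.mem_add.mp hz
    obtain ⟨a, ha, hab⟩ := Finset.mem_image.mp hz'
    rw [Finset.mem_filter] at hx
    rw [Finset.mem_erase] at hb
    have h1 : 2 ≤ (B.filter (fun b => b + (x - b₀) ∈ A)).card := by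
      refine Finset.one_lt_card.mpr ⟨b, Finset.mem_filter.mpr ⟨hb.2, ?_⟩, b₀,
        Finset.mem_filter.mpr ⟨hb₀, by simpa using hx.1⟩, hb.1⟩
      have : b + (x - b₀) = a := by linear_combination -hab
      rw [this]; exact ha
    have h2 := hex x hx.1 h1
    have h3 : B.filter (fun b => b + (x - b₀) ∈ A) = B :=
      Finset.eq_of_subset_of_card_le (Finset.filter_subset _ _) h2
    refine hx.2 (fun b hb => ?_)
    rw [← h3] at hb
    exact (Finset.mem_filter.mp hb).2
  have h1 : ((X + B.erase b₀) ∪ A.image (· + b₀)).card ≤ (A + B).card := by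
    refine Finset.card_le_card (Finset.union_subset ?_ ?_)
    · exact Finset.add_subset_add (Finset.filter_subset _ _) (Finset.erase_subset _ _)
    · intro z hz
      obtain ⟨a, ha, rfl⟩ := Finset.mem_image.mp hz
      exact Finset.add_mem_add ha hb₀
  rw [Finset.card_union_of_disjoint hdis,
    Finset.card_image_of_injective _ (add_left_injective _)] at h1
  have h2 := h.card_add_le
  have h3 := ZMod.cauchy_davenport hp.out (s := X) (t := B.erase b₀)
    (Finset.card_pos.mp (by omega)) (Finset.card_pos.mp (by omega))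
  rcases min_le_iff.mp h3 with h5 | h5 <;> omega

lemma interval_case {k : ℕ} (hk : p = 3 * k + 2) (A : Finset (ZMod p))
    (hsf : ∀ x ∈ A, ∀ y ∈ A, x + y ∉ A) (hc : A.card = k + 1) (hAP : IsAP 1 A) :
    ∀ x : ZMod p, k + 1 ≤ x.val → x.val ≤ 2 * k + 1 → x ∈ A := by
  set S : Finset ℕ := A.image ZMod.val with hS
  have hScard : S.card = k + 1 := by
    rw [hS, Finset.card_image_of_injective _ (ZMod.val_injective p), hc]
  have hSne : S.Nonempty := Finset.card_pos.mp (by omega)
  have hmem : ∀ n : ℕ, n ∈ S → (n : ZMod p) ∈ A ∧ n < p := by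
    intro n hn
    obtain ⟨x, hx, rfl⟩ := Finset.mem_image.mp hn
    exact ⟨by simpa using hx, ZMod.val_lt x⟩
  have hmem' : ∀ n : ℕ, n < p → (n : ZMod p) ∈ A → n ∈ S := by
    intro n hn h
    exact Finset.mem_image.mpr ⟨_, h, ZMod.val_cast_of_lt hn⟩
  have h0 : (0 : ZMod p) ∉ A := fun h => hsf 0 h 0 h (by simpa using h)
  set s := S.min' hSne with hs
  set m := S.max' hSne with hm
  have hsS : s ∈ S := S.min'_mem hSne
  have hmS : m ∈ S := S.max'_mem hSne
  have hmend : (m : ZMod p) + 1 ∉ A := by
    intro h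
    rcases Nat.lt_or_ge (m + 1) p with h1 | h1
    · have := S.le_max' _ (hmem' _ h1 (by push_cast; exact h))
      omega
    · have h2 : m + 1 = p := by have := (hmem m hmS).2; omega
      have h3 : (m : ZMod p) + 1 = 0 := by
        have : ((m + 1 : ℕ) : ZMod p) = 0 := by rw [h2]; simp
        exact_mod_cast this
      exact h0 (h3 ▸ h)
  have hstep : ∀ n ∈ S, n < m → n + 1 ∈ S := by
    intro n hn hlt
    refine hmem' _ (by have := (hmem m hmS).2; omega) ?_
    push_cast
    by_contra hcon
    have := Finset.card_le_one.mp hAP (n : ZMod p) (Finset.mem_filter.mpr ⟨(hmem n hn).1, hcon⟩)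
      (m : ZMod p) (Finset.mem_filter.mpr ⟨(hmem m hmS).1, hmend⟩)
    have h2 := congrArg ZMod.val this
    rw [ZMod.val_cast_of_lt (hmem n hn).2, ZMod.val_cast_of_lt (hmem m hmS).2] at h2
    omega
  have hall : ∀ n, s ≤ n → n ≤ m → n ∈ S := by
    intro n h1
    induction n, h1 using Nat.le_induction with
    | base => intro _; exact hsS
    | succ n _ ih => intro h2; exact hstep n (ih (by omega)) (by omega)
  have hSI : S = Finset.Icc s m := by
    ext n
    rw [Finset.mem_Icc]
    exact ⟨fun h => ⟨S.min'_le _ h, S.le_max' _ h⟩, fun h => hall n h.1 h.2⟩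
  have hlen : m + 1 - s = k + 1 := by rw [← Nat.card_Icc, ← hSI, hScard]
  have hmp := (hmem m hmS).2
  have h1 : k + 1 ≤ s := by
    by_contra hcon
    have := (hmem _ (hall (s + s) (by omega) (by omega))).1
    push_cast at this
    exact hsf _ (hmem s hsS).1 _ (hmem s hsS).1 this
  have h2 : s ≤ k + 1 := by
    by_contra hcon
    have := (hmem _ (hall (m + m - p) (by omega) (by omega))).1
    rw [Nat.cast_sub (by omega)] at this
    simp only [Nat.cast_add, CharP.cast_eq_zero, sub_zero] at this
    exact hsf _ (hmem m hmS).1 _ (hmem m hmS).1 this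
  intro x hx1 hx2
  simpa using (hmem _ (hall x.val (by omega) (by omega))).1

theorem classification {k : ℕ} (hk : p = 3 * k + 2) (hk1 : 1 ≤ k) (A : Finset (ZMod p))
    (hsf : ∀ x ∈ A, ∀ y ∈ A, x + y ∉ A) (hc : A.card = k + 1) :
    ∃ a : ZMod p, a ≠ 0 ∧ ∀ x : ZMod p, k + 1 ≤ (a * x).val → (a * x).val ≤ 2 * k + 1 → x ∈ A := by
  have hT : Trio A (-A) A := by
    intro a ha b hb c hc h
    obtain ⟨b', hb', rfl⟩ := Finset.mem_neg.mp hb
    have : a + c = b' := by linear_combination h
    exact hsf a ha c hc (this ▸ hb')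
  obtain ⟨d, hd0, hd⟩ := vosper _ A (-A) A rfl hT (by rw [Finset.card_neg]; omega) (by omega)
    (by rw [Finset.card_neg]; omega) (by omega)
  have hinj : Function.Injective (fun x : ZMod p => d⁻¹ * x) := mul_right_injective₀ (inv_ne_zero hd0)
  have hm : ∀ x, d⁻¹ * x ∈ A.image (fun x => d⁻¹ * x) ↔ x ∈ A := fun x => hinj.mem_finset_image
  refine ⟨d⁻¹, inv_ne_zero hd0, fun x h1 h2 => (hm x).mp ?_⟩
  refine interval_case hk _ ?_ (by rw [Finset.card_image_of_injective _ hinj, hc]) ?_ _ h1 h2
  · intro x hx y hy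
    obtain ⟨x', hx', rfl⟩ := Finset.mem_image.mp hx
    obtain ⟨y', hy', rfl⟩ := Finset.mem_image.mp hy
    rw [← mul_add, hm]
    exact hsf x' hx' y' hy'
  · unfold IsAP at hd ⊢
    rw [Finset.filter_image]
    refine Finset.card_image_le.trans (le_trans (le_of_eq ?_) hd)
    congr 1
    refine Finset.filter_congr (fun x _ => ?_)
    rw [show d⁻¹ * x + 1 = d⁻¹ * (x + d) by rw [mul_add, inv_mul_cancel₀ hd0], hm]

end Pool.Agent.Lib.MP_eec16c_co
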