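import Mathlib
import Pool.Agent.Lib.MP_eec16c_co.Vosper

/-!
Small sets of frequencies whose Bohr set of radius one third is a short interval, and the
packing bound in the other direction.
-/

set_option autoImplicit false

open Finset

namespace Pool.Agent.Lib.MP_eec16c_co

/-- `x` is within `ε` of an integer. -/
def Near (x ε : ℝ) : Prop := ∃ m : ℤ, |x - m| < ε

lemma Near.neg {x ε : ℝ} (h : Near x ε) : Near (-x) ε := by
  obtain ⟨m, hm⟩ := h
  refine ⟨-m, ?_⟩
  rw [← abs_neg]; push_cast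
  convert hm using 2; ring

lemma Near.sub_int {x ε : ℝ} (h : Near x ε) (z : ℤ) : Near (x - z) ε := by
  obtain ⟨m, hm⟩ := h
  refine ⟨m - z, ?_⟩
  push_cast
  convert hm using 2; ring

lemma floor_step {u : ℝ} (h : Near u (1 / 3)) : Even (⌊3 * u⌋ - ⌊u⌋) := by
  obtain ⟨m, hm⟩ := h
  rw [abs_lt] at hm
  rcases le_or_gt (m : ℝ) u with h1 | h1
  · have e1 : ⌊u⌋ = m := Int.floor_eq_iff.mpr ⟨h1, by linarith⟩
    have e2 : ⌊3 * u⌋ = 3 * m := Int.floor_eq_iff.mpr ⟨by push_cast; linarith, by push_cast; linarith⟩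
    rw [e1, e2]; exact ⟨m, by ring⟩
  · have e1 : ⌊u⌋ = m - 1 := Int.floor_eq_iff.mpr ⟨by push_cast; linarith, by push_cast; linarith⟩
    have e2 : ⌊3 * u⌋ = 3 * m - 1 :=
      Int.floor_eq_iff.mpr ⟨by push_cast; linarith, by push_cast; linarith⟩
    rw [e1, e2]; exact ⟨m, by ring⟩

lemma floor_parity (t : ℝ) (d : ℕ) (h : ∀ i < d, Near (3 ^ i * t) (1 / 3)) :
    Even (⌊3 ^ d * t⌋ - ⌊t⌋) := by
  induction d with
  | zero => simp
  | succ d ih =>
    have h1 := ih (fun i hi => h i (by omega))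
    have h2 := floor_step (h d (by omega))
    rw [show (3 : ℝ) ^ (d + 1) * t = 3 * (3 ^ d * t) by ring]
    obtain ⟨r, hr⟩ := h1
    obtain ⟨r', hr'⟩ := h2
    exact ⟨r + r', by omega⟩

lemma block_core {d n : ℕ} (hn : 2 * n = 3 ^ d + 1) (hd : 1 ≤ d) {ε : ℝ} (hε : ε * 3 ^ d ≤ 1)
    {t : ℝ} (h0 : 0 ≤ t) (h1 : t < 1 / 3) (h : ∀ i < d, Near (3 ^ i * t) (1 / 3)) (a : ℤ)
    (ha : |n * t - a| < ε) : a = 0 := by
  have hn' : 2 * (n : ℝ) = 3 ^ d + 1 := by exact_mod_cast hn
  have h3 : (3 : ℝ) ≤ 3 ^ d := by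
    calc (3 : ℝ) = 3 ^ 1 := by norm_num
      _ ≤ 3 ^ d := pow_le_pow_right₀ (by norm_num) hd
  have hε0 : 0 < ε := lt_of_le_of_lt (abs_nonneg _) ha
  have hε3 : ε ≤ 1 / 3 := by nlinarith
  rw [abs_lt] at ha
  have hnt : 0 ≤ (n : ℝ) * t := by positivity
  have ha0 : 0 ≤ a := by
    have : (-1 : ℝ) < a := by linarith
    have : (-1 : ℤ) < a := by exact_mod_cast this
    omega
  by_contra hne
  have ha1 : (1 : ℝ) ≤ a := by exact_mod_cast (by omega : (1 : ℤ) ≤ a)
  have hp := floor_parity t d h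
  have e1 : ⌊t⌋ = 0 := Int.floor_eq_iff.mpr ⟨by simpa using h0, by simp; linarith⟩
  have e0 : 3 ^ d * t = 2 * (n * t) - t := by linear_combination -t * hn'
  have e2 : ⌊3 ^ d * t⌋ = 2 * a - 1 := by
    refine Int.floor_eq_iff.mpr ⟨by push_cast; linarith, ?_⟩
    push_cast
    by_contra hc
    rw [not_lt] at hc
    have h5 : t < 2 * ε := by linarith
    have h6 : 3 ^ d * t < 3 ^ d * (2 * ε) := mul_lt_mul_of_pos_left h5 (by positivity)
    nlinarith
  rw [e1, e2] at hp
  obtain ⟨r, hr⟩ := hp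
  omega

lemma block_near {d n : ℕ} (hn : 2 * n = 3 ^ d + 1) (hd : 1 ≤ d) {ε : ℝ} (hε : ε * 3 ^ d ≤ 1)
    {t : ℝ} (h : ∀ i < d, Near (3 ^ i * t) (1 / 3)) (ha : Near (n * t) ε) : Near t (ε / n) := by
  have hnpos : (0 : ℝ) < n := by
    have : 0 < 3 ^ d := by positivity
    exact_mod_cast (by omega : 0 < n)
  obtain ⟨m, hm⟩ := h 0 (by omega)
  simp only [pow_zero, one_mul] at hm
  have h' : ∀ i < d, Near (3 ^ i * (t - m)) (1 / 3) := by
    intro i hi
    have := (h i hi).sub_int (3 ^ i * m)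
    convert this using 1; push_cast; ring
  obtain ⟨a, ha'⟩ : Near (n * (t - m)) ε := by
    have := ha.sub_int (n * m)
    convert this using 1; push_cast; ring
  have hz : a = 0 := by
    rw [abs_lt] at hm
    rcases le_or_gt 0 (t - m) with h1 | h1
    · exact block_core hn hd hε h1 hm.2 h' a ha'
    · have := block_core hn hd hε (t := -(t - m)) (by linarith) (by linarith)
        (fun i hi => by have := (h' i hi).neg; convert this using 1; ring) (-a) (by
          rw [← abs_neg]; convert ha' using 2; push_cast; ring)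
      omega
  refine ⟨m, ?_⟩
  rw [hz] at ha'
  simp only [Int.cast_zero, sub_zero, abs_mul, Nat.abs_cast] at ha'
  rw [lt_div_iff₀ hnpos]; linarith

/-- A set of at most `D` frequencies confines its Bohr set to distance `1 / V` from the integers. -/
def Good (D V : ℕ) : Prop :=
  ∃ B : Finset ℕ, B.card ≤ D ∧ ∀ t : ℝ, (∀ b ∈ B, Near (b * t) (1 / 3)) → Near t (1 / V)

lemma good_one : Good 1 3 := ⟨{1}, by simp, fun t h => by simpa using h 1 (by simp)⟩

lemma Good.block {D V d n : ℕ} (h : Good D V) (hn : 2 * n = 3 ^ d + 1) (hd : 1 ≤ d)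
    (hV : 3 ^ d ≤ V) : Good (D + d) (n * V) := by
  obtain ⟨B, hB, hG⟩ := h
  refine ⟨(range d).image (fun i => 3 ^ i) ∪ B.image (fun b => b * n), ?_, fun t ht => ?_⟩
  · refine (Finset.card_union_le _ _).trans ?_
    have h1 : ((range d).image (fun i => 3 ^ i)).card ≤ d := Finset.card_image_le.trans (by simp)
    have h2 : (B.image (fun b => b * n)).card ≤ D := Finset.card_image_le.trans hB
    omega
  · have hV0 : (0 : ℝ) < V := by
      have : 0 < 3 ^ d := by positivity
      exact_mod_cast (by omega : 0 < V)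
    have hV' : (3 : ℝ) ^ d ≤ V := by exact_mod_cast hV
    have h1 := hG (n * t) (fun b hb => by
      have := ht (b * n) (Finset.mem_union_right _ (Finset.mem_image_of_mem _ hb))
      convert this using 1; push_cast; ring)
    have h2 := block_near hn hd (ε := 1 / V) (by rw [div_mul_eq_mul_div, div_le_one hV0]; linarith)
      (t := t) (fun i hi => by
        have := ht (3 ^ i) (Finset.mem_union_left _ (Finset.mem_image_of_mem _ (Finset.mem_range.mpr hi)))
        exact_mod_cast this) h1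
    convert h2 using 1
    push_cast
    rw [div_div, mul_comm]

lemma exists_half (d : ℕ) : ∃ n : ℕ, 2 * n = 3 ^ d + 1 := by
  have : Odd (3 ^ d) := Odd.pow (by decide)
  obtain ⟨r, hr⟩ := this
  exact ⟨r + 1, by omega⟩

lemma good_family (k : ℕ) : ∀ D, 1 ≤ D → D ≤ 2 ^ k + k + 3 →
    ∃ V, Good D V ∧ 3 ^ D ≤ 2 ^ (k + 2) * V := by
  induction k with
  | zero =>
    have g2 : Good 2 6 := good_one.block (d := 1) (n := 2) (by norm_num) le_rfl (by norm_num)
    have g3 : Good 3 12 := g2.block (d := 1) (n := 2) (by norm_num) le_rfl (by norm_num)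
    have g4 : Good 4 24 := g3.block (d := 1) (n := 2) (by norm_num) le_rfl (by norm_num)
    intro D h1 h2
    norm_num at h2
    interval_cases D
    · exact ⟨3, good_one, by norm_num⟩
    · exact ⟨6, g2, by norm_num⟩
    · exact ⟨12, g3, by norm_num⟩
    · exact ⟨24, g4, by norm_num⟩
  | succ k ih =>
    intro D h1 h2
    rcases le_or_gt D (2 ^ k + k + 3) with h3 | h3
    · obtain ⟨V, hV1, hV2⟩ := ih D h1 h3
      refine ⟨V, hV1, hV2.trans (Nat.mul_le_mul_right _ ?_)⟩
      exact Nat.pow_le_pow_right (by norm_num) (by omega)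
    · obtain ⟨V, hV1, hV2⟩ := ih (2 ^ k + k + 3) (by omega) le_rfl
      obtain ⟨d, rfl⟩ : ∃ d, D = 2 ^ k + k + 3 + d := ⟨D - (2 ^ k + k + 3), by omega⟩
      obtain ⟨n, hn⟩ := exists_half d
      have hd : d ≤ 2 ^ k + 1 := by rw [pow_succ] at h2; omega
      have hV : 3 ^ d ≤ V := by
        have e : 3 ^ (2 ^ k + k + 3) = 3 ^ (k + 2) * 3 ^ (2 ^ k + 1) := by
          rw [← pow_add]; congr 1; omega
        have h4 : 2 ^ (k + 2) ≤ 3 ^ (k + 2) := Nat.pow_le_pow_left (by norm_num) _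
        have h5 : 2 ^ (k + 2) * 3 ^ (2 ^ k + 1) ≤ 2 ^ (k + 2) * V :=
          (Nat.mul_le_mul_right _ h4).trans (e ▸ hV2)
        exact (Nat.pow_le_pow_right (by norm_num) hd).trans
          (Nat.le_of_mul_le_mul_left h5 (by positivity))
      refine ⟨n * V, hV1.block hn (by omega) hV, ?_⟩
      calc 3 ^ (2 ^ k + k + 3 + d) = 3 ^ (2 ^ k + k + 3) * 3 ^ d := pow_add _ _ _
        _ ≤ (2 ^ (k + 2) * V) * (2 * n) := Nat.mul_le_mul hV2 (by omega)
        _ = 2 ^ (k + 1 + 2) * (n * V) := by ring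

lemma good_exists (D : ℕ) (hD : 1 ≤ D) : ∃ V, Good D V ∧ 3 ^ D ≤ 8 * D * V := by
  have hex : ∃ k, D ≤ 2 ^ k + k + 3 := ⟨D, by have := Nat.zero_le (2 ^ D); omega⟩
  classical
  obtain ⟨V, hV1, hV2⟩ := good_family (Nat.find hex) D hD (Nat.find_spec hex)
  refine ⟨V, hV1, hV2.trans (Nat.mul_le_mul_right _ ?_)⟩
  rcases Nat.eq_zero_or_pos (Nat.find hex) with h0 | h0
  · rw [h0]; omega
  · have := Nat.find_min hex (m := Nat.find hex - 1) (by omega)
    obtain ⟨j, hj⟩ : ∃ j, Nat.find hex = j + 1 := ⟨Nat.find hex - 1, by omega⟩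
    rw [hj] at this ⊢
    simp only [Nat.add_sub_cancel] at this
    rw [show 2 ^ (j + 1 + 2) = 8 * 2 ^ j by ring]
    omega

variable {p : ℕ} [hp : Fact p.Prime]

/-- `x` lies in the middle third. -/
def Mid (k : ℕ) (x : ZMod p) : Prop := k + 1 ≤ x.val ∧ x.val ≤ 2 * k + 1

lemma near_of_not_mid {k : ℕ} (hk : p = 3 * k + 2) (a : ZMod p) (b : ℕ)
    (h : ¬ Mid k (a * (b : ZMod p))) : Near (b * ((a.val : ℝ) / p)) (1 / 3) := by
  have hp0 : (0 : ℝ) < p := by exact_mod_cast hp.out.pos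
  have hk' : (p : ℝ) = 3 * k + 2 := by exact_mod_cast hk
  have e : (a * (b : ZMod p)).val = (a.val * b) % p := by
    rw [← ZMod.val_natCast]; congr 1; simp
  have e2 : (b : ℝ) * ((a.val : ℝ) / p) = ((a.val * b / p : ℕ) : ℝ) + ((a * (b : ZMod p)).val : ℝ) / p := by
    have := Nat.div_add_mod (a.val * b) p
    rw [← e] at this
    have h2 : (p : ℝ) * ((a.val * b / p : ℕ) : ℝ) + ((a * (b : ZMod p)).val : ℝ) = a.val * b := by
      exact_mod_cast this
    field_simp
    linarith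
  have hlt : ((a * (b : ZMod p)).val : ℝ) < p := by exact_mod_cast ZMod.val_lt (a * (b : ZMod p))
  have hge : (0 : ℝ) ≤ ((a * (b : ZMod p)).val : ℝ) := by positivity
  rw [e2]
  unfold Mid at h
  rcases le_or_gt (a * (b : ZMod p)).val k with h1 | h1
  · refine ⟨(a.val * b / p : ℕ), ?_⟩
    have h2 : ((a * (b : ZMod p)).val : ℝ) ≤ k := by exact_mod_cast h1
    simp only [Int.cast_natCast, add_sub_cancel_left]
    rw [abs_of_nonneg (by positivity), div_lt_iff₀ hp0]; linarith
  · refine ⟨(a.val * b / p : ℕ) + 1, ?_⟩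
    have h2 : 2 * (k : ℝ) + 2 ≤ ((a * (b : ZMod p)).val : ℝ) := by exact_mod_cast (by omega : 2 * k + 2 ≤ _)
    have h3 : ((a * (b : ZMod p)).val : ℝ) / p < 1 := (div_lt_one hp0).mpr hlt
    have h4 : 2 / 3 < ((a * (b : ZMod p)).val : ℝ) / p := by rw [lt_div_iff₀ hp0]; linarith
    simp only [Int.cast_add, Int.cast_natCast, Int.cast_one]
    rw [abs_lt]; constructor <;> linarith

lemma eq_zero_of_near (a : ZMod p) (h : Near ((a.val : ℝ) / p) (1 / p)) : a = 0 := by
  have hp0 : (0 : ℝ) < p := by exact_mod_cast hp.out.pos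
  obtain ⟨m, hm⟩ := h
  have h1 : |(a.val : ℝ) - m * p| < 1 := by
    have : (a.val : ℝ) / p - m = ((a.val : ℝ) - m * p) / p := by field_simp
    rw [this, abs_div, abs_of_pos hp0, div_lt_div_iff_of_pos_right hp0] at hm
    exact hm
  have h2 : |(a.val : ℤ) - m * p| < 1 := by exact_mod_cast h1
  have h3 : (a.val : ℤ) = m * p := by rw [abs_lt] at h2; omega
  have h4 := congrArg (fun z : ℤ => (z : ZMod p)) h3
  simpa using h4

lemma hitting_of_good {k D V : ℕ} (hk : p = 3 * k + 2) (h : Good D V) (hV : p ≤ V) :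
    ∃ B : Finset (ZMod p), B.card ≤ D ∧ ∀ a : ZMod p, a ≠ 0 → ∃ b ∈ B, Mid k (a * b) := by
  obtain ⟨B, hB, hG⟩ := h
  refine ⟨B.image (fun b : ℕ => (b : ZMod p)), Finset.card_image_le.trans hB, fun a ha => ?_⟩
  by_contra hc
  push Not at hc
  obtain ⟨m, hm⟩ := hG ((a.val : ℝ) / p)
    (fun b hb => near_of_not_mid hk a b (hc _ (Finset.mem_image_of_mem _ hb)))
  refine ha (eq_zero_of_near a ⟨m, hm.trans_le ?_⟩)
  have hp0 : (0 : ℝ) < p := by exact_mod_cast hp.out.pos
  exact one_div_le_one_div_of_le hp0 (by exact_mod_cast hV)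

lemma hitting_exact {k d : ℕ} (hk : p = 3 * k + 2) (hd : 2 * p = 3 ^ d + 1) :
    ∃ B : Finset (ZMod p), B.card ≤ d ∧ ∀ a : ZMod p, a ≠ 0 → ∃ b ∈ B, Mid k (a * b) := by
  have hp0 : (0 : ℝ) < p := by exact_mod_cast hp.out.pos
  have hd1 : 1 ≤ d := by
    rcases Nat.eq_zero_or_pos d with h | h
    · rw [h] at hd; omega
    · exact h
  refine ⟨(range d).image (fun i => ((3 ^ i : ℕ) : ZMod p)), Finset.card_image_le.trans (by simp),
    fun a ha => ?_⟩
  by_contra hc
  push Not at hc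
  have h3 : (1 : ℝ) ≤ 3 ^ d := one_le_pow₀ (by norm_num)
  obtain ⟨m, hm⟩ := block_near hd hd1 (ε := 1 / 3 ^ d) (by simp) (t := (a.val : ℝ) / p)
    (fun i hi => by
      have := near_of_not_mid hk a (3 ^ i) (hc _ (Finset.mem_image_of_mem _ (Finset.mem_range.mpr hi)))
      exact_mod_cast this)
    ⟨a.val, by
      rw [mul_div_cancel₀ _ hp0.ne']
      simp⟩
  refine ha (eq_zero_of_near a ⟨m, hm.trans_le ?_⟩)
  exact div_le_div_of_nonneg_right (by rw [div_le_one (by positivity)]; exact h3) hp0.le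

lemma not_mid_of_arc {k : ℕ} (hk : p = 3 * k + 2) {u v : ZMod p} (hu : u.val ≤ k) (hv : v.val ≤ k) :
    ¬ Mid k (u - v) := by
  rintro ⟨h1, h2⟩
  have e : (u - v) + v = u := by ring
  have h3 := congrArg ZMod.val e
  rw [ZMod.val_add_of_lt (by omega)] at h3
  omega

lemma packing {k : ℕ} (hk : p = 3 * k + 2) (B : Finset (ZMod p)) : ∀ X : Finset (ZMod p),
    (∀ x ∈ X, ∀ y ∈ X, x ≠ y → ∃ b ∈ B, Mid k ((x - y) * b)) → 2 * X.card ≤ 3 ^ B.card + 1 := by
  induction B using Finset.induction_on with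
  | empty =>
    intro X hX
    have : X.card ≤ 1 := Finset.card_le_one.mpr (fun x hx y hy => by
      by_contra hne
      obtain ⟨b, hb, -⟩ := hX x hx y hy hne
      simp at hb)
    simp; omega
  | insert b B hb ih =>
    intro X hX
    rw [Finset.card_insert_of_notMem hb]
    have h1 : ∀ s : ZMod p, 2 * (X.filter (fun x => (x * b - s).val ≤ k)).card ≤ 3 ^ B.card + 1 := by
      intro s
      refine ih _ (fun x hx y hy hne => ?_)
      rw [Finset.mem_filter] at hx hy
      obtain ⟨b', hb', hm⟩ := hX x hx.1 y hy.1 hne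
      rcases Finset.mem_insert.mp hb' with rfl | hb'
      · exact absurd (by convert hm using 1; ring) (not_mid_of_arc hk hx.2 hy.2)
      · exact ⟨b', hb', hm⟩
    have h2 : ∀ x : ZMod p, (Finset.univ.filter (fun s : ZMod p => (x * b - s).val ≤ k)).card = k + 1 := by
      intro x
      have : (Finset.univ.filter (fun s : ZMod p => (x * b - s).val ≤ k)) =
          (range (k + 1)).image (fun j : ℕ => x * b - (j : ZMod p)) := by
        ext s
        simp only [Finset.mem_filter, Finset.mem_univ, true_and, Finset.mem_image, Finset.mem_range]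
        constructor
        · intro h; exact ⟨(x * b - s).val, by omega, by simp⟩
        · rintro ⟨j, hj, rfl⟩
          rw [sub_sub_cancel, ZMod.val_cast_of_lt (by omega)]; omega
      rw [this, Finset.card_image_of_injOn, Finset.card_range]
      intro i hi j hj hij
      simp only [Finset.coe_range, Set.mem_Iio] at hi hj
      have h3 : (i : ZMod p) = j := by linear_combination -hij
      have h4 := congrArg ZMod.val h3
      rwa [ZMod.val_cast_of_lt (by omega), ZMod.val_cast_of_lt (by omega)] at h4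
    have h3 : ∑ s : ZMod p, (X.filter (fun x => (x * b - s).val ≤ k)).card = X.card * (k + 1) := by
      simp only [Finset.card_filter]
      rw [Finset.sum_comm]
      simp only [← Finset.card_filter, h2]
      simp
    obtain ⟨N, hN⟩ := exists_half B.card
    have h4 : ∑ s : ZMod p, (X.filter (fun x => (x * b - s).val ≤ k)).card ≤ ∑ _s : ZMod p, N :=
      Finset.sum_le_sum (fun s _ => by have := h1 s; omega)
    rw [h3] at h4
    simp only [Finset.sum_const, Finset.card_univ, ZMod.card, smul_eq_mul] at h4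
    have hN0 : 0 < N := by
      have : 0 < 3 ^ B.card := by positivity
      omega
    have h5 : X.card < 3 * N := by
      by_contra hc
      have : 3 * N * (k + 1) ≤ X.card * (k + 1) := Nat.mul_le_mul_right _ (by omega)
      have h6 : p * N = (3 * k + 2) * N := by rw [← hk]
      nlinarith
    rw [pow_succ]; omega

lemma mid_sumfree {k : ℕ} (hk : p = 3 * k + 2) {x y : ZMod p} (hx : Mid k x) (hy : Mid k y) :
    ¬ Mid k (x + y) := by
  rintro ⟨h1, h2⟩
  obtain ⟨h3, h4⟩ := hx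
  obtain ⟨h5, h6⟩ := hy
  rcases lt_or_ge (x.val + y.val) p with h | h
  · rw [ZMod.val_add_of_lt h] at h2; omega
  · rw [ZMod.val_add_of_le h] at h1; omega

open Classical in
lemma card_mid {k : ℕ} (hk : p = 3 * k + 2) {a : ZMod p} (ha : a ≠ 0) :
    (Finset.univ.filter (fun x : ZMod p => Mid k (a * x))).card = k + 1 := by
  have : (Finset.univ.filter (fun x : ZMod p => Mid k (a * x))) =
      (Icc (k + 1) (2 * k + 1)).image (fun j : ℕ => a⁻¹ * (j : ZMod p)) := by
    ext s
    simp only [Finset.mem_filter, Finset.mem_univ, true_and, Finset.mem_image, Finset.mem_Icc]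
    unfold Mid
    constructor
    · intro h; exact ⟨(a * s).val, h, by simp [ha]⟩
    · rintro ⟨j, hj, rfl⟩
      rw [mul_inv_cancel_left₀ ha, ZMod.val_cast_of_lt (by omega)]; exact hj
  rw [this, Finset.card_image_of_injOn, Nat.card_Icc]
  · omega
  intro i hi j hj hij
  simp only [Finset.coe_Icc, Set.mem_Icc] at hi hj
  have h3 : (i : ZMod p) = j := mul_left_cancel₀ (inv_ne_zero ha) hij
  have h4 := congrArg ZMod.val h3
  rwa [ZMod.val_cast_of_lt (by omega), ZMod.val_cast_of_lt (by omega)] at h4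

/-- Every `m`-subset contains a sum-free set of size `k + 1`. -/
def Full (p k m : ℕ) : Prop :=
  ∀ M : Finset (ZMod p), M.card = m → ∃ A ⊆ M, (∀ x ∈ A, ∀ y ∈ A, x + y ∉ A) ∧ A.card = k + 1

lemma full_of_small {k m : ℕ} (hk : p = 3 * k + 2) (h : 3 ^ (p - m) + 1 < 2 * p) : Full p k m := by
  classical
  intro M hM
  have hB : (Finset.univ \ M).card = p - m := by
    rw [Finset.card_univ_sdiff, ZMod.card, hM]
  have : ¬ ∀ a : ZMod p, a ≠ 0 → ∃ b ∈ Finset.univ \ M, Mid k (a * b) := by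
    intro hc
    have := packing hk (Finset.univ \ M) Finset.univ
      (fun x _ y _ hne => hc _ (sub_ne_zero.mpr hne))
    rw [Finset.card_univ, ZMod.card, hB] at this
    omega
  push Not at this
  obtain ⟨a, ha, hM'⟩ := this
  refine ⟨Finset.univ.filter (fun x : ZMod p => Mid k (a * x)), fun x hx => ?_,
    fun x hx y hy hxy => ?_, card_mid hk ha⟩
  · by_contra hc
    exact hM' x (by simp [hc]) (Finset.mem_filter.mp hx).2
  · rw [Finset.mem_filter] at hx hy hxy
    exact mid_sumfree hk hx.2 hy.2 (by rw [← mul_add]; exact hxy.2)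

lemma not_full {k m D : ℕ} (hk : p = 3 * k + 2) (hk1 : 1 ≤ k)
    (hB : ∃ B : Finset (ZMod p), B.card ≤ D ∧ ∀ a : ZMod p, a ≠ 0 → ∃ b ∈ B, Mid k (a * b))
    (hm : m + D ≤ p) : ¬ Full p k m := by
  obtain ⟨B, hB1, hB2⟩ := hB
  intro hF
  obtain ⟨M, hM1, hM2⟩ := Finset.exists_subset_card_eq (s := Finset.univ \ B) (n := m)
    (by rw [Finset.card_univ_sdiff, ZMod.card]; omega)
  obtain ⟨A, hA1, hA2, hA3⟩ := hF M hM2
  obtain ⟨a, ha, hA⟩ := classification hk hk1 A hA2 hA3
  obtain ⟨b, hb, h1, h2⟩ := hB2 a ha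
  exact (Finset.mem_sdiff.mp (hM1 (hA1 (hA b h1 h2)))).2 hb

theorem threshold {k : ℕ} (hk : p = 3 * k + 2) (hk1 : 1 ≤ k) :
    ∃ T τ : ℕ, T + τ = p + 1 ∧ IsLeast {m | Full p k m} T ∧
      2 * p ≤ 3 ^ τ + 1 ∧ 3 ^ τ < 24 * τ * p ∧ ∀ d, 2 * p = 3 ^ d + 1 → τ = d := by
  classical
  have hp' : Full p k p := full_of_small hk (by simp; omega)
  have hex : ∃ m, Full p k m := ⟨p, hp'⟩
  have hT : Nat.find hex ≤ p := Nat.find_min' hex hp'
  have hT0 : Nat.find hex ≠ 0 := by
    intro h0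
    have := Nat.find_spec hex
    rw [h0] at this
    obtain ⟨A, hA1, -, hA3⟩ := this ∅ rfl
    rw [Finset.subset_empty.mp hA1] at hA3
    simp at hA3
  obtain ⟨τ, hτ⟩ : ∃ τ, Nat.find hex + τ = p + 1 := ⟨p + 1 - Nat.find hex, by omega⟩
  have hlow : 2 * p ≤ 3 ^ τ + 1 := by
    by_contra hc
    refine Nat.find_min hex (m := Nat.find hex - 1) (by omega) (full_of_small hk ?_)
    rw [show p - (Nat.find hex - 1) = τ by omega]; omega
  refine ⟨Nat.find hex, τ, hτ, ⟨Nat.find_spec hex, fun m hm => Nat.find_min' hex hm⟩, hlow, ?_, ?_⟩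
  · obtain ⟨D, rfl⟩ : ∃ D, τ = D + 1 := ⟨τ - 1, by omega⟩
    have hD : 1 ≤ D := by
      rcases Nat.eq_zero_or_pos D with h | h
      · rw [h] at hlow; omega
      · exact h
    obtain ⟨V, hV1, hV2⟩ := good_exists D hD
    have hV : V < p := by
      by_contra hc
      exact not_full hk hk1 (hitting_of_good hk hV1 (by omega)) (by omega) (Nat.find_spec hex)
    calc 3 ^ (D + 1) = 3 * 3 ^ D := by ring
      _ ≤ 3 * (8 * D * V) := by omega
      _ < 24 * (D + 1) * p := by nlinarith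
  · intro d hd
    have h1 : d ≤ τ := by
      by_contra hc
      have : 3 ^ τ < 3 ^ d := Nat.pow_lt_pow_right (by norm_num) (by omega)
      omega
    by_contra hc
    exact not_full hk hk1 (hitting_exact hk hd) (by omega) (Nat.find_spec hex)

end Pool.Agent.Lib.MP_eec16c_co
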